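import Pool.Agent.Q71.LS.Defs

/-!
# The algebra of continuous functions on `D̄ ∪ [1, 2]` which are holomorphic on `D`
-/

namespace Q71.LS

open Set Filter Topology WeakDual

/-- The compact set `D̄ ∪ [1, 2]`. -/
def KK : Set ℂ := Metric.closedBall 0 1 ∪ (fun t : ℝ => (t : ℂ)) '' Icc 1 2

theorem isCompact_KK : IsCompact KK :=
  (ProperSpace.isCompact_closedBall _ _).union (isCompact_Icc.image Complex.continuous_ofReal)

instance : CompactSpace KK := isCompact_iff_compactSpace.1 isCompact_KK

theorem ball_sub {a : ℂ} (ha : ‖a‖ < 1) : a ∈ KK := by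
  left
  rw [mem_closedBall_zero_iff]
  exact ha.le

/-- Extension by zero of a function on `KK`. -/
noncomputable def ext (f : C(KK, ℂ)) (w : ℂ) : ℂ := open Classical in if h : w ∈ KK then f ⟨w, h⟩ else 0

theorem ext_apply (f : C(KK, ℂ)) {w : ℂ} (h : w ∈ KK) : ext f w = f ⟨w, h⟩ := by
  simp [ext, h]

theorem ext_continuousOn (f : C(KK, ℂ)) : ContinuousOn (ext f) KK := by
  rw [continuousOn_iff_continuous_domRestrict]
  have : KK.domRestrict (ext f) = f := by
    ext w
    exact ext_apply f w.2
  rw [this]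
  exact f.continuous

theorem norm_ext_le (f : C(KK, ℂ)) (w : ℂ) : ‖ext f w‖ ≤ ‖f‖ := by
  unfold ext
  split_ifs with h
  · exact f.norm_coe_le_norm _
  · simp

/-- The algebra. -/
noncomputable def dA : Subalgebra ℂ C(KK, ℂ) where
  carrier := {f | DifferentiableOn ℂ (ext f) (Metric.ball 0 1)}
  mul_mem' := by
    intro f g hf hg
    refine (DifferentiableOn.mul hf hg).congr fun w hw => ?_
    have h : w ∈ KK := ball_sub (by simpa using hw)
    simp [ext_apply _ h]
  add_mem' := by
    intro f g hf hg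
    refine (DifferentiableOn.add hf hg).congr fun w hw => ?_
    have h : w ∈ KK := ball_sub (by simpa using hw)
    simp [ext_apply _ h]
  algebraMap_mem' := by
    intro c
    refine (differentiableOn_const c).congr fun w hw => ?_
    have h : w ∈ KK := ball_sub (by simpa using hw)
    simp [ext_apply _ h]

theorem mem_dA {f : C(KK, ℂ)} : f ∈ dA ↔ DifferentiableOn ℂ (ext f) (Metric.ball 0 1) := Iff.rfl

theorem isClosed_dA : IsClosed (dA : Set C(KK, ℂ)) := by
  rw [← isSeqClosed_iff_isClosed]
  intro f g hf hg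
  change DifferentiableOn ℂ (ext g) (Metric.ball 0 1)
  have hunif : TendstoUniformly (fun n => ext (f n)) (ext g) atTop := by
    rw [Metric.tendstoUniformly_iff]
    intro ε hε
    rw [Metric.tendsto_nhds] at hg
    filter_upwards [hg ε hε] with n hn w
    by_cases h : w ∈ KK
    · rw [ext_apply _ h, ext_apply _ h, dist_comm]
      exact lt_of_le_of_lt (ContinuousMap.dist_apply_le_dist _) hn
    · simp [ext, h, hε]
  refine (hunif.tendstoUniformlyOn.tendstoLocallyUniformlyOn).differentiableOn
    (Filter.Eventually.of_forall fun n => hf n) Metric.isOpen_ball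

/-- The type. -/
abbrev AA : Type := dA

instance : CompleteSpace AA := isClosed_dA.completeSpace_coe

/-- Closed subalgebras of a commutative Banach algebra are Frechet algebras. -/
theorem isFrechet_of_norm (A : Type) [NormedCommRing A] [NormedAlgebra ℂ A] [CompleteSpace A]
    [Nontrivial A] : IsFrechetAlgebra A := by
  refine ⟨inferInstance, inferInstance, inferInstance, fun _ => normSeminorm ℂ A, ?_, ?_, ?_⟩
  · intro i j _
    exact le_rfl
  · intro m x y
    exact norm_mul_le x y
  · refine (norm_withSeminorms ℂ A).congr ?_ ?_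
    · intro i
      refine ⟨{0}, 1, ?_⟩
      simp
    · intro i
      refine ⟨{0}, 1, ?_⟩
      simp

/-- The coordinate function. -/
noncomputable def zA : AA := ⟨⟨fun w => (w : ℂ), continuous_subtype_val⟩, by
  refine differentiableOn_id.congr fun w hw => ?_
  have h : w ∈ KK := ball_sub (by simpa using hw)
  rw [ext_apply _ h]
  rfl⟩

theorem zA_apply (w : KK) : (zA : C(KK, ℂ)) w = w := rfl

/-- Evaluation at a point. -/
noncomputable def evA (a : KK) : characterSpace ℂ AA :=
  CharacterSpace.equivAlgHom.symm ((ContinuousMap.evalAlgHom ℂ ℂ a).comp dA.val)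

theorem evA_apply (a : KK) (f : AA) : evA a f = (f : C(KK, ℂ)) a := rfl

theorem continuous_evA : Continuous evA := by
  refine Continuous.subtype_mk ?_ _
  refine WeakDual.continuous_of_continuous_eval ?_
  intro f
  exact (f : C(KK, ℂ)).continuous

/-- Division by `z - a`. -/
theorem exists_quot (f : AA) {a : ℂ} (ha : ‖a‖ < 1) : ∃ g : AA,
    f - algebraMap ℂ AA ((f : C(KK, ℂ)) ⟨a, ball_sub ha⟩) = (zA - algebraMap ℂ AA a) * g := by
  have hball : Metric.ball (0 : ℂ) 1 ⊆ KK := fun w hw => ball_sub (by simpa using hw)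
  have haball : Metric.ball (0 : ℂ) 1 ∈ 𝓝 a := Metric.isOpen_ball.mem_nhds (by simpa using ha)
  have hK : KK ∈ 𝓝 a := Filter.mem_of_superset haball hball
  have hd : DifferentiableOn ℂ (ext f) (Metric.ball 0 1) := f.2
  have hcont : ContinuousOn (dslope (ext f) a) KK := by
    rw [continuousOn_dslope hK]
    exact ⟨ext_continuousOn _, hd.differentiableAt haball⟩
  have hdiff : DifferentiableOn ℂ (dslope (ext f) a) (Metric.ball 0 1) :=
    (Complex.differentiableOn_dslope haball).2 hd
  let g0 : C(KK, ℂ) := ⟨KK.domRestrict (dslope (ext f) a),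
    continuousOn_iff_continuous_domRestrict.1 hcont⟩
  have hg0 : g0 ∈ dA := by
    rw [mem_dA]
    refine hdiff.congr fun w hw => ?_
    rw [ext_apply _ (hball hw)]
    rfl
  refine ⟨⟨g0, hg0⟩, ?_⟩
  apply Subtype.ext
  ext w
  have h1 := sub_smul_dslope (ext f) a (w : ℂ)
  rw [ext_apply _ w.2, ext_apply _ (ball_sub ha)] at h1
  have h2 : ((zA - algebraMap ℂ AA a) * ⟨g0, hg0⟩ : AA).1 w =
      ((w : ℂ) - a) * dslope (ext f) a w := rfl
  rw [h2, ← smul_eq_mul, h1]
  rfl

/-- The characters with `|φ(z)| < 1` are evaluations. -/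
theorem char_eq (φ : characterSpace ℂ AA) (h : ‖φ zA‖ < 1) (f : AA) :
    φ f = (f : C(KK, ℂ)) ⟨φ zA, ball_sub h⟩ := by
  obtain ⟨g, hg⟩ := exists_quot f h
  have h1 : φ (f - algebraMap ℂ AA ((f : C(KK, ℂ)) ⟨φ zA, ball_sub h⟩)) = 0 := by
    rw [hg, map_mul, map_sub, AlgHomClass.commutes]
    simp
  rw [map_sub, AlgHomClass.commutes] at h1
  exact sub_eq_zero.1 h1

end Q71.LS
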