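import Mathlib

/-!
# No analytic subset of an open set of `ℂⁿ` is locally an arc

`LA S`: near each of its points, the set `S` is the common zero set of analytic functions.
`IL S`: `S` is homeomorphic to an open interval. The two properties exclude each other.
-/

namespace Q71.LS

open Set Filter Topology

/-- `S` is, near each of its points, a common zero set of analytic functions. -/
def LA {E : Type*} [NormedAddCommGroup E] [NormedSpace ℂ E] (S : Set E) : Prop :=
  ∀ p ∈ S, ∃ N : Set E, IsOpen N ∧ p ∈ N ∧ ∃ F : Set (E → ℂ),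
    (∀ f ∈ F, AnalyticOnNhd ℂ f N) ∧ ∀ z ∈ N, (z ∈ S ↔ ∀ f ∈ F, f z = 0)

/-- `S` is homeomorphic to an open interval. -/
def IL {X : Type*} [TopologicalSpace X] (S : Set X) : Prop :=
  ∃ (a b : ℝ) (γ : ℝ → X) (g : X → ℝ), a < b ∧ ContinuousOn γ (Ioo a b) ∧ ContinuousOn g S ∧
    MapsTo γ (Ioo a b) S ∧ MapsTo g S (Ioo a b) ∧ (∀ t ∈ Ioo a b, g (γ t) = t) ∧
    ∀ x ∈ S, γ (g x) = x

theorem IL.nonempty {X : Type*} [TopologicalSpace X] {S : Set X} (h : IL S) : S.Nonempty := by
  obtain ⟨a, b, γ, g, hab, -, -, hm, -⟩ := h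
  exact ⟨γ ((a + b) / 2), hm ⟨by linarith, by linarith⟩⟩

theorem IL.restrict {X : Type*} [TopologicalSpace X] {S O : Set X} (h : IL S) (hO : IsOpen O)
    {q : X} (hq : q ∈ S) (hqO : q ∈ O) :
    ∃ O' : Set X, IsOpen O' ∧ O' ⊆ O ∧ q ∈ O' ∧ IL (S ∩ O') := by
  obtain ⟨a, b, γ, g, hab, hγ, hg, hm, hm', h1, h2⟩ := h
  have ht0 : g q ∈ Ioo a b := hm' hq
  have hcont : ContinuousAt γ (g q) := hγ.continuousAt (Ioo_mem_nhds ht0.1 ht0.2)
  have hmem : γ ⁻¹' O ∈ 𝓝 (g q) := hcont.preimage_mem_nhds (by rw [h2 q hq]; exact hO.mem_nhds hqO)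
  obtain ⟨c, d, hcd, hsub⟩ := mem_nhds_iff_exists_Ioo_subset.1
    (Filter.inter_mem hmem (Ioo_mem_nhds ht0.1 ht0.2))
  obtain ⟨W, hW, hWe⟩ := (continuousOn_iff'.1 hg) (Ioo c d) isOpen_Ioo
  have hmemW : ∀ x ∈ S, (x ∈ W ↔ g x ∈ Ioo c d) := by
    intro x hx
    constructor
    · intro hxW
      have : x ∈ g ⁻¹' Ioo c d ∩ S := by rw [hWe]; exact ⟨hxW, hx⟩
      exact this.1
    · intro hxg
      have : x ∈ W ∩ S := by rw [← hWe]; exact ⟨hxg, hx⟩
      exact this.1
  refine ⟨W ∩ O, hW.inter hO, inter_subset_right, ⟨(hmemW q hq).2 hcd, hqO⟩, c, d, γ, g,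
    hcd.1.trans hcd.2, hγ.mono fun t ht => (hsub ht).2, hg.mono inter_subset_left, ?_, ?_, ?_, ?_⟩
  · intro t ht
    have h3 := hsub ht
    refine ⟨hm h3.2, (hmemW _ (hm h3.2)).2 (by rw [h1 t h3.2]; exact ht), h3.1⟩
  · intro x hx
    exact (hmemW x hx.1).1 hx.2.1
  · intro t ht
    exact h1 t (hsub ht).2
  · intro x hx
    exact h2 x hx.1

theorem IL.transport {X Y : Type*} [TopologicalSpace X] [TopologicalSpace Y] {S : Set X}
    {T : Set Y} (h : IL S) (u : X → Y) (v : Y → X) (hu : ContinuousOn u S) (hv : ContinuousOn v T)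
    (hmu : MapsTo u S T) (hmv : MapsTo v T S) (h1 : ∀ x ∈ S, v (u x) = x)
    (h2 : ∀ y ∈ T, u (v y) = y) : IL T := by
  obtain ⟨a, b, γ, g, hab, hγ, hg, hm, hm', h3, h4⟩ := h
  refine ⟨a, b, u ∘ γ, g ∘ v, hab, hu.comp hγ hm, hg.comp hv hmv, hmu.comp hm, hm'.comp hmv,
    ?_, ?_⟩
  · intro t ht
    simp only [Function.comp_apply]
    rw [h1 _ (hm ht), h3 t ht]
  · intro y hy
    simp only [Function.comp_apply]
    rw [h4 _ (hmv hy), h2 y hy]

section

variable {E : Type} [NormedAddCommGroup E] [NormedSpace ℂ E]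

theorem LA.inter_open {S O : Set E} (h : LA S) (hO : IsOpen O) : LA (S ∩ O) := by
  intro p hp
  obtain ⟨N, hN, hpN, F, hF, hS⟩ := h p hp.1
  refine ⟨N ∩ O, hN.inter hO, ⟨hpN, hp.2⟩, F, fun f hf => (hF f hf).mono inter_subset_left, ?_⟩
  intro z hz
  rw [← hS z hz.1]
  exact ⟨fun h => h.1, fun h => ⟨h, hz.2⟩⟩

/-- A set which contains a ball of a nonzero complex space is not mapped injectively and
continuously to the line. -/
theorem no_ball {S : Set E} {p v : E} {r : ℝ} (hr : 0 < r) (hv : v ≠ 0)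
    (hB : Metric.ball p r ⊆ S) {g : E → ℝ} (hg : ContinuousOn g S) (hi : InjOn g S) : False := by
  set w : E := ((r / 2 / ‖v‖ : ℝ) : ℂ) • v with hw
  have hv0 : 0 < ‖v‖ := norm_pos_iff.2 hv
  have hwn : ‖w‖ = r / 2 := by
    rw [hw, norm_smul, Complex.norm_real, Real.norm_of_nonneg (by positivity)]
    field_simp
  set c : ℝ → E := fun t => p + Complex.exp (t * Complex.I) • w with hc
  have hcB : ∀ t, c t ∈ Metric.ball p r := by
    intro t
    rw [Metric.mem_ball, hc]
    simp only [dist_self_add_left]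
    rw [norm_smul, Complex.norm_exp_ofReal_mul_I, hwn]
    linarith
  have hcc : Continuous c := by
    rw [hc]
    fun_prop
  set ψ : ℝ → ℝ := fun t => g (c t) - g (c (t + Real.pi)) with hψ
  have hgc : Continuous fun t => g (c t) :=
    hg.comp_continuous hcc (fun t => hB (hcB t))
  have hψc : Continuous ψ := hgc.sub (hgc.comp (continuous_id.add continuous_const))
  have hper : c (0 + Real.pi + Real.pi) = c 0 := by
    simp only [hc]
    congr 2
    rw [show ((0 + Real.pi + Real.pi : ℝ) : ℂ) * Complex.I = 0 * Complex.I + 2 * Real.pi * Complex.I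
      by push_cast; ring, Complex.exp_periodic]
    simp
  have hanti : ψ (0 + Real.pi) = - ψ 0 := by
    simp only [hψ]
    rw [hper]
    ring
  have h0 : (0 : ℝ) ∈ range ψ := by
    rcases le_total (ψ 0) 0 with h | h
    · exact mem_range_of_exists_le_of_exists_ge hψc ⟨0, h⟩ ⟨0 + Real.pi, by rw [hanti]; linarith⟩
    · exact mem_range_of_exists_le_of_exists_ge hψc ⟨0 + Real.pi, by rw [hanti]; linarith⟩ ⟨0, h⟩
  obtain ⟨t, ht⟩ := h0
  have h1 : g (c t) = g (c (t + Real.pi)) := by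
    have := ht
    simp only [hψ] at this
    linarith
  have h2 : c t = c (t + Real.pi) := hi (hB (hcB t)) (hB (hcB _)) h1
  have h3 : Complex.exp (t * Complex.I) • w = Complex.exp ((t + Real.pi : ℝ) * Complex.I) • w := by
    simpa [hc] using h2
  have h4 : Complex.exp ((t + Real.pi : ℝ) * Complex.I) = - Complex.exp (t * Complex.I) := by
    push_cast
    rw [add_mul, Complex.exp_add, Complex.exp_pi_mul_I]
    ring
  rw [h4, neg_smul] at h3
  have h5 : (2 : ℂ) • (Complex.exp (t * Complex.I) • w) = 0 := by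
    rw [two_smul]
    nth_rewrite 2 [h3]
    simp
  have h6 : w = 0 := by
    rcases smul_eq_zero.1 h5 with h | h
    · norm_num at h
    · rcases smul_eq_zero.1 h with h | h
      · exact absurd h (Complex.exp_ne_zero _)
      · exact h
  rw [h6, norm_zero] at hwn
  linarith

variable [FiniteDimensional ℂ E]

/-- An analytic function which is not identically zero near `p` has a nonzero iterated derivative
at `p`. -/
theorem exists_iteratedFDeriv_ne {f : E → ℂ} {p : E} (hf : AnalyticAt ℂ f p)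
    (h0 : ¬ ∀ᶠ z in 𝓝 p, f z = 0) : ∃ k, iteratedFDeriv ℂ k f p ≠ 0 := by
  by_contra hcon
  push Not at hcon
  apply h0
  obtain ⟨P, r, hP⟩ := hf
  have hr : 0 < r := hP.r_pos
  have h1 : ∀ y ∈ Metric.eball (0 : E) r, f (p + y) = 0 := by
    intro y hy
    have h2 := hP.hasSum_iteratedFDeriv hy
    have h3 : (fun n : ℕ => ((n.factorial : ℂ))⁻¹ • iteratedFDeriv ℂ n f p fun _ => y) = 0 := by
      ext n
      rw [hcon n]
      simp
    rw [h3] at h2
    exact (hasSum_zero.unique h2).symm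
  have h4 : Metric.eball p r ∈ 𝓝 p := Metric.eball_mem_nhds p hr
  filter_upwards [h4] with z hz
  have h5 := h1 (z - p) (by
    rw [Metric.mem_eball, edist_zero_right, ← edist_eq_enorm_sub]
    exact hz)
  simpa using h5

/-- Dropping one dimension. -/
theorem drop {S : Set E} (hLA : LA S) {q : E} (hq : q ∈ S) {h : E → ℂ} (hh : AnalyticAt ℂ h q)
    {v : E} (hv : fderiv ℂ h q v ≠ 0) {B : Set E} (hB : IsOpen B) (hqB : q ∈ B)
    (hS : ∀ z ∈ S ∩ B, h z = 0) (hIL : IL S) :
    ∃ (K : Submodule ℂ E) (S' : Set K),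
      Module.finrank ℂ K + 1 = Module.finrank ℂ E ∧ LA S' ∧ IL S' := by
  set L : E →L[ℂ] ℂ := fderiv ℂ h q with hL
  set K : Submodule ℂ E := LinearMap.ker (L : E →ₗ[ℂ] ℂ) with hK
  have hsurj : LinearMap.range (L : E →ₗ[ℂ] ℂ) = ⊤ := by
    rw [LinearMap.range_eq_top]
    intro c
    refine ⟨(c / L v) • v, ?_⟩
    simp only [ContinuousLinearMap.coe_coe, map_smul, smul_eq_mul]
    field_simp
  have hrank : Module.finrank ℂ K + 1 = Module.finrank ℂ E := by
    have h1 := LinearMap.finrank_range_add_finrank_ker (L : E →ₗ[ℂ] ℂ)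
    rw [hsurj, finrank_top, Module.finrank_self] at h1
    rw [← h1, add_comm]
  -- the projection
  let P0 : E →ₗ[ℂ] E := LinearMap.id - (LinearMap.toSpanSingleton ℂ E ((L v)⁻¹ • v)) ∘ₗ (L : E →ₗ[ℂ] ℂ)
  have hP0 : ∀ x, P0 x = x - L x • ((L v)⁻¹ • v) := by
    intro x
    simp [P0]
  have hP0K : ∀ x, P0 x ∈ K := by
    intro x
    rw [hK, LinearMap.mem_ker, hP0]
    simp only [ContinuousLinearMap.coe_coe, map_sub, map_smul, smul_eq_mul]
    rw [inv_mul_cancel₀ hv]
    ring
  let P : E →ₗ[ℂ] K := P0.codRestrict K hP0K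
  let A : E →ₗ[ℂ] ℂ × K := (L : E →ₗ[ℂ] ℂ).prod P
  have hAinj : Function.Injective A := by
    rw [← LinearMap.ker_eq_bot, LinearMap.ker_eq_bot']
    intro x hx
    have h1 : L x = 0 := congrArg Prod.fst hx
    have h2 : P x = 0 := congrArg Prod.snd hx
    have h3 : P0 x = 0 := congrArg Subtype.val h2
    rw [hP0, h1, zero_smul, sub_zero] at h3
    exact h3
  have hfr : Module.finrank ℂ E = Module.finrank ℂ (ℂ × K) := by
    rw [Module.finrank_prod, Module.finrank_self, ← hrank, add_comm]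
  let A1 : E ≃ₗ[ℂ] ℂ × K := LinearEquiv.ofInjectiveOfFinrankEq A hAinj hfr
  let Ae : E ≃L[ℂ] ℂ × K := A1.toContinuousLinearEquiv
  let Φ : E → ℂ × K := fun x => (h x, P x)
  let Pc : E →L[ℂ] K := LinearMap.toContinuousLinearMap P
  have hAe : (Ae : E →L[ℂ] ℂ × K) = L.prod Pc := by
    ext x : 1
    rfl
  have hΦan : AnalyticAt ℂ Φ q := hh.prod (Pc.analyticAt q)
  have hder : HasStrictFDerivAt Φ (Ae : E →L[ℂ] ℂ × K) q := by
    rw [hAe]
    exact (hh.hasStrictFDerivAt).prodMk Pc.hasStrictFDerivAt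
  let e := hder.toOpenPartialHomeomorph Φ
  have heΦ : ∀ x, e x = Φ x := fun x => rfl
  have hqs : q ∈ e.source := hder.mem_toOpenPartialHomeomorph_source
  have heq : e.symm (e q) = q := e.left_inv hqs
  have hsan : AnalyticAt ℂ e.symm (e q) := by
    refine e.analyticAt_symm (i := Ae) (e.map_source hqs) ?_ ?_
    · rw [heq]; exact hΦan
    · rw [heq]; exact hder.hasFDerivAt.fderiv
  have hqv : h q = 0 := hS q ⟨hq, hqB⟩
  -- the open set on which the inverse is analytic
  have hT0 : {y | AnalyticAt ℂ e.symm y} ∩ e.target ∈ 𝓝 (e q) :=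
    Filter.inter_mem ((isOpen_analyticAt ℂ e.symm).mem_nhds hsan)
      (e.open_target.mem_nhds (e.map_source hqs))
  obtain ⟨T, hTsub, hTo, hqT⟩ := mem_nhds_iff.1 hT0
  have hTan : AnalyticOnNhd ℂ e.symm T := fun y hy => (hTsub hy).1
  -- the neighbourhood of `q`
  have hN1 : IsOpen (e.source ∩ e ⁻¹' T) := e.isOpen_inter_preimage hTo
  obtain ⟨O', hO'o, hO'sub, hqO', hIL'⟩ := hIL.restrict (hN1.inter hB) hq ⟨⟨hqs, hqT⟩, hqB⟩
  have hemb : ∀ w : K, ((0 : ℂ), w) ∈ T → e (e.symm ((0 : ℂ), w)) = ((0 : ℂ), w) :=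
    fun w hw => e.right_inv (hTsub hw).2
  set S' : Set K := {w | ((0 : ℂ), w) ∈ T ∧ e.symm ((0 : ℂ), w) ∈ S ∩ O'} with hS'
  have hι : Continuous fun w : K => ((0 : ℂ), w) := by fun_prop
  refine ⟨K, S', hrank, ?_, ?_⟩
  · -- analytic
    intro w hw
    obtain ⟨N, hN, hxN, F, hF, hFS⟩ := hLA _ hw.2.1
    have hcont : ContinuousOn e.symm T := hTan.continuousOn
    have hM : IsOpen (T ∩ e.symm ⁻¹' (N ∩ O')) := hcont.isOpen_inter_preimage hTo (hN.inter hO'o)
    refine ⟨(fun w : K => ((0 : ℂ), w)) ⁻¹' (T ∩ e.symm ⁻¹' (N ∩ O')), hM.preimage hι,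
      ⟨hw.1, hxN, hw.2.2⟩, (fun f => fun w : K => f (e.symm ((0 : ℂ), w))) '' F, ?_, ?_⟩
    · rintro _ ⟨f, hf, rfl⟩ z hz
      have h1 : AnalyticAt ℂ (fun w : K => ((0 : ℂ), w)) z :=
        analyticAt_const.prod analyticAt_id
      have h2 : AnalyticAt ℂ e.symm ((0 : ℂ), z) := hTan _ hz.1
      have h3 : AnalyticAt ℂ f (e.symm ((0 : ℂ), z)) := hF f hf _ hz.2.1
      exact (h3.fun_comp h2).fun_comp h1
    · intro z hz
      constructor
      · intro hzS
        rintro _ ⟨f, hf, rfl⟩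
        exact (hFS _ hz.2.1).1 hzS.2.1 f hf
      · intro hz0
        refine ⟨hz.1, (hFS _ hz.2.1).2 ?_, hz.2.2⟩
        intro f hf
        exact hz0 _ ⟨f, hf, rfl⟩
  · -- homeomorphic to an interval
    have hzero : ∀ x ∈ S ∩ O', e x = ((0 : ℂ), P x) := by
      intro x hx
      rw [heΦ]
      simp only [Φ]
      rw [hS x ⟨hx.1, (hO'sub hx.2).2⟩]
    refine hIL'.transport (fun x => P x) (fun w => e.symm ((0 : ℂ), w)) ?_ ?_ ?_ ?_ ?_ ?_
    · exact (Pc.continuous).continuousOn
    · refine ContinuousOn.comp (t := T) hTan.continuousOn hι.continuousOn ?_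
      intro w hw
      exact hw.1
    · intro x hx
      have h1 := hzero x hx
      have h2 := (hO'sub hx.2).1
      refine ⟨?_, ?_⟩
      · rw [← h1]; exact h2.2
      · rw [← h1, e.left_inv h2.1]; exact hx
    · intro w hw
      exact hw.2
    · intro x hx
      change e.symm ((0 : ℂ), P x) = x
      rw [← hzero x hx]
      exact e.left_inv (hO'sub hx.2).1.1
    · intro w hw
      have h1 := hemb w hw.1
      have h2 := hzero _ hw.2
      rw [h1] at h2
      exact (congrArg Prod.snd h2).symm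

end

/-- **A locally analytic set is not homeomorphic to an open interval.** -/
theorem not_IL_of_LA : ∀ (n : ℕ) (E : Type) [NormedAddCommGroup E] [NormedSpace ℂ E]
    [FiniteDimensional ℂ E], Module.finrank ℂ E = n → ∀ S : Set E, LA S → ¬ IL S := by
  intro n
  induction n with
  | zero =>
    intro E _ _ _ hE S _ hIL
    haveI : Subsingleton E := Module.finrank_zero_iff.1 hE
    obtain ⟨a, b, γ, g, hab, -, -, -, -, h1, -⟩ := hIL
    have h2 := h1 ((a + b) / 2) ⟨by linarith, by linarith⟩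
    have h3 := h1 ((3 * a + b) / 4) ⟨by linarith, by linarith⟩
    rw [Subsingleton.elim (γ ((a + b) / 2)) (γ ((3 * a + b) / 4)), h3] at h2
    linarith
  | succ n ih =>
    intro E _ _ _ hE S hLA hIL
    obtain ⟨p, hp⟩ := hIL.nonempty
    obtain ⟨N, hN, hpN, F, hF, hFS⟩ := hLA p hp
    obtain ⟨r, hr, hrN⟩ := Metric.isOpen_iff.1 hN p hpN
    by_cases hall : ∀ f ∈ F, ∀ᶠ z in 𝓝 p, f z = 0
    · -- the set contains a ball
      have hB : Metric.ball p r ⊆ S := by
        intro z hz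
        rw [hFS z (hrN hz)]
        intro f hf
        have h1 : AnalyticOnNhd ℂ f (Metric.ball p r) := (hF f hf).mono hrN
        exact h1.eqOn_zero_of_preconnected_of_eventuallyEq_zero
          (convex_ball p r).isPreconnected (Metric.mem_ball_self hr) (hall f hf) hz
      haveI : Nontrivial E := Module.nontrivial_of_finrank_pos (R := ℂ) (by omega)
      obtain ⟨v, hv⟩ := exists_ne (0 : E)
      obtain ⟨a, b, γ, g, hab, hγ, hg, hm, hm', h1, h2⟩ := hIL
      refine no_ball hr hv hB hg ?_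
      intro x hx y hy hxy
      rw [← h2 x hx, ← h2 y hy, hxy]
    · push Not at hall
      obtain ⟨f, hf, hfp⟩ := hall
      have hfan : AnalyticOnNhd ℂ f N := hF f hf
      obtain ⟨k0, hk0⟩ := exists_iteratedFDeriv_ne (hfan p hpN) (Filter.not_eventually.2 hfp)
      classical
      have hex : ∃ k, ∃ q ∈ S ∩ Metric.ball p r, iteratedFDeriv ℂ k f q ≠ 0 :=
        ⟨k0, p, ⟨hp, Metric.mem_ball_self hr⟩, hk0⟩
      obtain ⟨q, hq, hqk⟩ := Nat.find_spec hex
      have hmin : ∀ k < Nat.find hex, ∀ z ∈ S ∩ Metric.ball p r, iteratedFDeriv ℂ k f z = 0 := by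
        intro k hk z hz
        by_contra hne
        exact Nat.find_min hex hk ⟨z, hz, hne⟩
      obtain ⟨k, hk⟩ : ∃ k, Nat.find hex = k + 1 := by
        refine Nat.exists_eq_succ_of_ne_zero ?_
        intro h0
        rw [h0] at hqk
        apply hqk
        ext m
        simp only [iteratedFDeriv_zero_apply, zero_apply]
        exact (hFS q (hrN hq.2)).1 hq.1 f hf
      rw [hk] at hqk hmin
      obtain ⟨m, hm⟩ : ∃ m, iteratedFDeriv ℂ (k + 1) f q m ≠ 0 := by
        by_contra hcon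
        push Not at hcon
        exact hqk (ContinuousMultilinearMap.ext hcon)
      rw [iteratedFDeriv_succ_apply_left] at hm
      set h : E → ℂ := fun z => iteratedFDeriv ℂ k f z (Fin.tail m) with hh
      have hitan : AnalyticOnNhd ℂ (iteratedFDeriv ℂ k f) N := hfan.iteratedFDeriv k
      have hhan : AnalyticAt ℂ h q := by
        have h1 : AnalyticAt ℂ (iteratedFDeriv ℂ k f) q := hitan q (hrN hq.2)
        exact ((ContinuousMultilinearMap.apply ℂ (fun _ : Fin k => E) ℂ (Fin.tail m)).analyticAt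
          _).fun_comp h1
      have hfd : fderiv ℂ h q (m 0) ≠ 0 := by
        have h1 : HasFDerivAt (iteratedFDeriv ℂ k f) (fderiv ℂ (iteratedFDeriv ℂ k f) q) q :=
          (hitan q (hrN hq.2)).differentiableAt.hasFDerivAt
        have h2 := ((ContinuousMultilinearMap.apply ℂ (fun _ : Fin k => E) ℂ
          (Fin.tail m)).hasFDerivAt (x := iteratedFDeriv ℂ k f q)).comp q h1
        have h3 : fderiv ℂ h q = (ContinuousMultilinearMap.apply ℂ (fun _ : Fin k => E) ℂ
          (Fin.tail m)).comp (fderiv ℂ (iteratedFDeriv ℂ k f) q) := h2.fderiv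
        rw [h3]
        exact hm
      obtain ⟨K, S', hrk, hLA', hIL'⟩ := drop hLA hq.1 hhan hfd Metric.isOpen_ball hq.2
        (fun z hz => by
          simp only [hh]
          rw [hmin k (Nat.lt_succ_self k) z hz]
          rfl) hIL
      exact ih K (by omega) S' hLA' hIL'

end Q71.LS
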