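import Mathlib

/-!
# Frechet algebras, reduced complex spaces, Stein spaces, locally Stein algebras
-/

namespace Q71.LS

open Set Filter Topology

/-- `V` is an analytic subset of the open set `Ω` of `ℂⁿ`: near each point of `Ω` it is the common
zero set of finitely many holomorphic functions. -/
def IsAnalyticSubset {n : ℕ} (Ω V : Set (Fin n → ℂ)) : Prop :=
  IsOpen Ω ∧ V ⊆ Ω ∧ ∀ p ∈ Ω, ∃ N : Set (Fin n → ℂ), IsOpen N ∧ p ∈ N ∧
    ∃ (k : ℕ) (F : Fin k → (Fin n → ℂ) → ℂ), (∀ i, AnalyticOnNhd ℂ (F i) N) ∧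
      ∀ z ∈ N, (z ∈ V ↔ ∀ i, F i z = 0)

/-- A reduced complex space structure on the topological space `Y`. The structure is given by its
holomorphic functions: `hol f q` says that the function `f` is holomorphic near the point `q`.
The space is Hausdorff with a countable base, and each point has an open neighbourhood `U` with a
homeomorphism `e` onto an analytic subset `V` of an open set of some `ℂⁿ` such that near each
point of `U` the holomorphic functions are the `G ∘ e`, with `G` holomorphic in the ambient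
space. -/
def IsReducedComplexSpace (Y : Type) [TopologicalSpace Y] (hol : (Y → ℂ) → Y → Prop) : Prop :=
  T2Space Y ∧ SecondCountableTopology Y ∧ ∀ p : Y,
    ∃ (n : ℕ) (Ω V : Set (Fin n → ℂ)), IsAnalyticSubset Ω V ∧
      ∃ U : Set Y, IsOpen U ∧ p ∈ U ∧ ∃ e : U ≃ₜ V, ∀ (q : U) (f : Y → ℂ),
        hol f q ↔ ∃ G : (Fin n → ℂ) → ℂ, AnalyticAt ℂ G (e q) ∧ ∀ᶠ y : U in 𝓝 q, f y = G (e y)

/-- The holomorphic functions on `Y`. -/
def Hol {Y : Type} (hol : (Y → ℂ) → Y → Prop) : Set (Y → ℂ) := {f | ∀ q, hol f q}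

/-- `Y` is a reduced Stein space: a reduced complex space which is holomorphically separable and
holomorphically convex. -/
def IsReducedStein (Y : Type) [TopologicalSpace Y] (hol : (Y → ℂ) → Y → Prop) : Prop :=
  IsReducedComplexSpace Y hol ∧
  (∀ p q : Y, p ≠ q → ∃ f ∈ Hol hol, f p ≠ f q) ∧
  ∀ K : Set Y, IsCompact K →
    IsCompact {y | ∀ f ∈ Hol hol, ∀ M : ℝ, (∀ x ∈ K, ‖f x‖ ≤ M) → ‖f y‖ ≤ M}

/-- A (non-zero, commutative, unital, complex) Frechet algebra: the topology is Hausdorff, complete
and given by an increasing sequence of submultiplicative seminorms. -/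
def IsFrechetAlgebra (A : Type) [CommRing A] [Algebra ℂ A] [UniformSpace A]
    [IsUniformAddGroup A] : Prop :=
  Nontrivial A ∧ T2Space A ∧ CompleteSpace A ∧ ∃ p : ℕ → Seminorm ℂ A,
    Monotone p ∧ (∀ m x y, p m (x * y) ≤ p m x * p m y) ∧ WithSeminorms p

/-- The algebra `A` is locally Stein: a non-empty open subset `Y` of its spectrum `M(A)` (the
non-zero continuous complex homomorphisms with the Gel'fand topology) carries the structure of a
reduced Stein space for which all Gel'fand transforms are holomorphic on `Y` and form a dense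
subset of `Hol(Y)` in the compact-open topology. -/
def IsLocallyStein (A : Type) [CommRing A] [Algebra ℂ A] [TopologicalSpace A] : Prop :=
  ∃ Y : Set (WeakDual.characterSpace ℂ A), IsOpen Y ∧ Y.Nonempty ∧
    ∃ hol : (Y → ℂ) → Y → Prop, IsReducedStein Y hol ∧
      (∀ x : A, (fun φ : Y => (φ : WeakDual.characterSpace ℂ A) x) ∈ Hol hol) ∧
      ∀ f ∈ Hol hol, ∀ K : Set Y, IsCompact K → ∀ ε : ℝ, 0 < ε →
        ∃ x : A, ∀ φ ∈ K, ‖(φ : WeakDual.characterSpace ℂ A) x - f φ‖ < ε

/-- No nonempty open subset of the spectrum of `A` carries the structure of a reduced complex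
space. -/
def SpectrumNowhereComplex (A : Type) [CommRing A] [Algebra ℂ A] [TopologicalSpace A] : Prop :=
  ∀ Y : Set (WeakDual.characterSpace ℂ A), IsOpen Y → Y.Nonempty →
    ∀ hol : (Y → ℂ) → Y → Prop, ¬ IsReducedComplexSpace Y hol

end Q71.LS
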