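import Pool.Agent.Q71.LS.Arc
import Pool.Agent.Q71.LS.Defs

/-!
# Spaces which are locally intervals carry no complex structure
-/

namespace Q71.LS

open Set Filter Topology

/-- If every point of the open set `Y` of the space `M` has arbitrarily small neighbourhoods which
are intervals (here: `M` has one interval inside every nonempty open set) then `Y` is not a
reduced complex space. -/
theorem not_reducedComplexSpace {M : Type} [TopologicalSpace M]
    (hM : ∀ O : Set M, IsOpen O → O.Nonempty → ∃ O' ⊆ O, IsOpen O' ∧ IL O')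
    (Y : Set M) (hY : IsOpen Y) (hYn : Y.Nonempty) (hol : (Y → ℂ) → Y → Prop) :
    ¬ IsReducedComplexSpace Y hol := by
  rintro ⟨-, -, hch⟩
  obtain ⟨p, hp⟩ := hYn
  obtain ⟨n, Ω, V, ⟨hΩ, hVΩ, hV⟩, U, hU, hpU, e, -⟩ := hch ⟨p, hp⟩
  -- the open set of `M`
  have hUM : IsOpen (Subtype.val '' U : Set M) := (hY.isOpenEmbedding_subtypeVal).isOpenMap _ hU
  obtain ⟨O', hO'sub, hO'o, hIL⟩ := hM _ hUM ⟨p, ⟨p, hp⟩, hpU, rfl⟩
  have hmem : ∀ x : M, x ∈ O' → ∃ h : x ∈ Y, (⟨x, h⟩ : Y) ∈ U := by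
    intro x hx
    obtain ⟨y, hy, rfl⟩ := hO'sub hx
    exact ⟨y.2, hy⟩
  classical
  -- transport to `ℂⁿ`
  let u : M → (Fin n → ℂ) := fun x => if h : x ∈ O' then
    ((e ⟨⟨x, (hmem x h).choose⟩, (hmem x h).choose_spec⟩ : V) : Fin n → ℂ) else 0
  let S : Set (Fin n → ℂ) := {z | ∃ h : z ∈ V, ((((e.symm ⟨z, h⟩ : U) : Y)) : M) ∈ O'}
  let v : (Fin n → ℂ) → M := fun z => if h : z ∈ V then ((((e.symm ⟨z, h⟩ : U) : Y)) : M) else p
  have hu : ∀ x (h : x ∈ O'), u x =
      ((e ⟨⟨x, (hmem x h).choose⟩, (hmem x h).choose_spec⟩ : V) : Fin n → ℂ) := by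
    intro x h
    simp only [u, h, dif_pos]
  have hv : ∀ z (h : z ∈ V), v z = ((((e.symm ⟨z, h⟩ : U) : Y)) : M) := by
    intro z h
    simp only [v, h, dif_pos]
  have hILS : IL S := by
    refine hIL.transport u v ?_ ?_ ?_ ?_ ?_ ?_
    · rw [continuousOn_iff_continuous_domRestrict]
      have h1 : O'.domRestrict u = fun x : O' =>
          ((e ⟨⟨x.1, (hmem x.1 x.2).choose⟩, (hmem x.1 x.2).choose_spec⟩ : V) : Fin n → ℂ) := by
        ext1 x
        exact hu x.1 x.2
      rw [h1]
      refine continuous_subtype_val.comp (e.continuous.comp ?_)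
      exact Continuous.subtype_mk (Continuous.subtype_mk continuous_subtype_val _) _
    · rw [continuousOn_iff_continuous_domRestrict]
      have h1 : S.domRestrict v = fun z : S => ((((e.symm ⟨z.1, z.2.choose⟩ : U) : Y)) : M) := by
        ext1 z
        exact hv z.1 z.2.choose
      rw [h1]
      refine continuous_subtype_val.comp (continuous_subtype_val.comp (e.symm.continuous.comp ?_))
      exact Continuous.subtype_mk continuous_subtype_val _
    · intro x hx
      rw [hu x hx]
      refine ⟨Subtype.property _, ?_⟩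
      simpa using hx
    · intro z hz
      obtain ⟨h, h'⟩ := hz
      rw [hv z h]
      exact h'
    · intro x hx
      rw [hu x hx, hv _ (Subtype.property _)]
      simp
    · intro z hz
      obtain ⟨h, h'⟩ := hz
      rw [hv z h, hu _ h']
      simp
  -- analyticity
  have hSV : ∃ W : Set (Fin n → ℂ), IsOpen W ∧ S = V ∩ W := by
    have h1 : IsOpen {z : V | ((((e.symm z : U) : Y)) : M) ∈ O'} :=
      hO'o.preimage (continuous_subtype_val.comp (continuous_subtype_val.comp e.symm.continuous))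
    obtain ⟨W, hW, hWe⟩ := isOpen_induced_iff.1 h1
    refine ⟨W, hW, ?_⟩
    ext z
    constructor
    · rintro ⟨h, h'⟩
      refine ⟨h, ?_⟩
      have : (⟨z, h⟩ : V) ∈ Subtype.val ⁻¹' W := by rw [hWe]; exact h'
      exact this
    · rintro ⟨h, hzW⟩
      refine ⟨h, ?_⟩
      have : (⟨z, h⟩ : V) ∈ Subtype.val ⁻¹' W := hzW
      rw [hWe] at this
      exact this
  obtain ⟨W, hW, hSW⟩ := hSV
  have hLAV : LA V := by
    intro q hq
    obtain ⟨N, hN, hqN, k, F, hF, hFV⟩ := hV q (hVΩ hq)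
    refine ⟨N, hN, hqN, range F, ?_, ?_⟩
    · rintro _ ⟨i, rfl⟩
      exact hF i
    · intro z hz
      rw [hFV z hz]
      simp
  have hLAS : LA S := by
    rw [hSW]
    exact hLAV.inter_open hW
  exact not_IL_of_LA n (Fin n → ℂ) (by simp) S hLAS hILS

end Q71.LS
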