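import Pool.Agent.Q71.LS.Alg

/-!
# The algebra is locally Stein
-/

namespace Q71.LS

open Set Filter Topology WeakDual

/-- The open subset of the spectrum. -/
def YY : Set (characterSpace ℂ AA) := {φ | ‖φ zA‖ < 1}

/-- The disc in `ℂ¹`. -/
def VV : Set (Fin 1 → ℂ) := {z | ‖z 0‖ < 1}

theorem continuous_apply_char (f : AA) : Continuous fun φ : characterSpace ℂ AA => φ f :=
  (WeakDual.eval_continuous f).comp continuous_subtype_val

theorem isOpen_YY : IsOpen YY :=
  isOpen_lt (continuous_apply_char zA).norm continuous_const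

theorem isOpen_VV : IsOpen VV :=
  isOpen_lt (continuous_apply 0).norm continuous_const

/-- The chart. -/
noncomputable def eY : YY ≃ₜ VV where
  toFun φ := ⟨fun _ => (φ : characterSpace ℂ AA) zA, φ.2⟩
  invFun z := ⟨evA ⟨z.1 0, ball_sub z.2⟩, by
    change ‖evA _ zA‖ < 1
    rw [evA_apply, zA_apply]
    exact z.2⟩
  left_inv := by
    intro φ
    apply Subtype.ext
    apply WeakDual.CharacterSpace.ext
    intro f
    change evA _ f = _
    rw [evA_apply, char_eq φ.1 φ.2 f]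
  right_inv := by
    intro z
    apply Subtype.ext
    funext i
    change evA _ zA = z.1 i
    rw [evA_apply, zA_apply, Subsingleton.elim i 0]
  continuous_toFun := by
    refine Continuous.subtype_mk (continuous_pi fun _ => ?_) _
    exact (continuous_apply_char zA).comp continuous_subtype_val
  continuous_invFun := by
    refine Continuous.subtype_mk (continuous_evA.comp (Continuous.subtype_mk ?_ _)) _
    exact (continuous_apply 0).comp continuous_subtype_val

theorem eY_apply (φ : YY) : (eY φ : Fin 1 → ℂ) = fun _ => (φ : characterSpace ℂ AA) zA := rfl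

/-- The structure. -/
def holY (f : YY → ℂ) (q : YY) : Prop :=
  ∃ G : (Fin 1 → ℂ) → ℂ, AnalyticAt ℂ G (eY q) ∧ ∀ᶠ y : YY in 𝓝 q, f y = G (eY y)

theorem holY_continuous {f : YY → ℂ} (hf : f ∈ Hol holY) : Continuous f := by
  rw [continuous_iff_continuousAt]
  intro q
  obtain ⟨G, hG, hfG⟩ := hf q
  have h1 : ContinuousAt (fun y : YY => G (eY y)) q :=
    ContinuousAt.comp (f := fun y : YY => (eY y : Fin 1 → ℂ)) hG.continuousAt
      (continuous_subtype_val.comp eY.continuous).continuousAt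
  exact h1.congr (hfG.mono fun y hy => hy.symm)

theorem coord_hol : (fun y : YY => (eY y : Fin 1 → ℂ) 0) ∈ Hol holY := by
  intro q
  refine ⟨fun z => z 0, ?_, Filter.Eventually.of_forall fun _ => rfl⟩
  exact (ContinuousLinearMap.proj (R := ℂ) (φ := fun _ : Fin 1 => ℂ) 0).analyticAt _

theorem isReducedComplexSpace_YY : IsReducedComplexSpace YY holY := by
  refine ⟨inferInstance, eY.isEmbedding.secondCountableTopology, ?_⟩
  intro p
  refine ⟨1, VV, VV, ⟨isOpen_VV, Subset.rfl, ?_⟩, univ, isOpen_univ, mem_univ _,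
    (Homeomorph.Set.univ YY).trans eY, ?_⟩
  · intro q hq
    refine ⟨VV, isOpen_VV, hq, 0, fun _ _ => 0, fun i => i.elim0, ?_⟩
    intro z hz
    exact ⟨fun _ i => i.elim0, fun _ => hz⟩
  · intro q f
    have h1 : ∀ P : YY → Prop, (∀ᶠ y : (univ : Set YY) in 𝓝 q, P y) ↔ ∀ᶠ y : YY in 𝓝 (q : YY), P y := by
      intro P
      have h2 : 𝓝 ((Homeomorph.Set.univ YY) q) = Filter.map (Homeomorph.Set.univ YY) (𝓝 q) :=
        ((Homeomorph.Set.univ YY).map_nhds_eq q).symm
      change _ ↔ ∀ᶠ y : YY in 𝓝 ((Homeomorph.Set.univ YY) q), P y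
      rw [h2, Filter.eventually_map]
      rfl
    constructor
    · rintro ⟨G, hG, hfG⟩
      exact ⟨G, hG, (h1 _).2 hfG⟩
    · rintro ⟨G, hG, hfG⟩
      exact ⟨G, hG, (h1 fun y => f y = G (eY y)).1 hfG⟩

theorem isCompact_radius {r : ℝ} (hr : r < 1) : IsCompact {y : YY | ‖(eY y : Fin 1 → ℂ) 0‖ ≤ r} := by
  have h1 : IsCompact {z : Fin 1 → ℂ | ‖z 0‖ ≤ r} := by
    have h2 : {z : Fin 1 → ℂ | ‖z 0‖ ≤ r} = Set.pi univ fun _ : Fin 1 => Metric.closedBall (0 : ℂ) r := by
      ext z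
      simp [Set.mem_pi]
    rw [h2]
    exact isCompact_univ_pi fun _ => ProperSpace.isCompact_closedBall _ _
  have h3 : IsCompact {z : VV | ‖(z : Fin 1 → ℂ) 0‖ ≤ r} := by
    rw [Subtype.isCompact_iff]
    convert h1 using 1
    ext z
    constructor
    · rintro ⟨w, hw, rfl⟩
      exact hw
    · intro hz
      exact ⟨⟨z, lt_of_le_of_lt hz hr⟩, hz, rfl⟩
  have h4 : {y : YY | ‖(eY y : Fin 1 → ℂ) 0‖ ≤ r} = eY ⁻¹' {z : VV | ‖(z : Fin 1 → ℂ) 0‖ ≤ r} := rfl
  rw [h4]
  exact eY.isCompact_preimage.2 h3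

/-- A compact subset of the disc lies in a smaller closed disc. -/
theorem exists_radius {K : Set YY} (hK : IsCompact K) :
    ∃ r : ℝ, 0 ≤ r ∧ r < 1 ∧ ∀ y ∈ K, ‖(eY y : Fin 1 → ℂ) 0‖ ≤ r := by
  rcases K.eq_empty_or_nonempty with h | h
  · exact ⟨0, le_rfl, zero_lt_one, by simp [h]⟩
  · have hc : ContinuousOn (fun y : YY => ‖(eY y : Fin 1 → ℂ) 0‖) K :=
      ((continuous_apply 0).comp (continuous_subtype_val.comp eY.continuous)).norm.continuousOn
    obtain ⟨y0, hy0, hmax⟩ := hK.exists_isMaxOn h hc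
    exact ⟨_, norm_nonneg _, (eY y0).2, fun y hy => hmax hy⟩

theorem isReducedStein_YY : IsReducedStein YY holY := by
  refine ⟨isReducedComplexSpace_YY, ?_, ?_⟩
  · intro p q hpq
    refine ⟨_, coord_hol, ?_⟩
    intro h
    apply hpq
    apply eY.injective
    apply Subtype.ext
    funext i
    rw [Subsingleton.elim i 0]
    exact h
  · intro K hK
    obtain ⟨r, hr0, hr, hKr⟩ := exists_radius hK
    refine (isCompact_radius hr).of_isClosed_subset ?_ ?_
    · have h1 : {y : YY | ∀ f ∈ Hol holY, ∀ M : ℝ, (∀ x ∈ K, ‖f x‖ ≤ M) → ‖f y‖ ≤ M} =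
          ⋂ f ∈ Hol holY, ⋂ (M : ℝ), ⋂ (_ : ∀ x ∈ K, ‖f x‖ ≤ M), {y : YY | ‖f y‖ ≤ M} := by
        ext y
        simp
      rw [h1]
      refine isClosed_biInter fun f hf => isClosed_iInter fun M => isClosed_iInter fun _ => ?_
      exact isClosed_le (holY_continuous hf).norm continuous_const
    · intro y hy
      exact hy _ coord_hol r hKr

/-- The function of one variable. -/
noncomputable def oneVar (f : YY → ℂ) (w : ℂ) : ℂ :=
  open Classical in if h : ‖w‖ < 1 then f (eY.symm ⟨fun _ => w, h⟩) else 0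

theorem oneVar_coord (f : YY → ℂ) (y : YY) : oneVar f ((eY y : Fin 1 → ℂ) 0) = f y := by
  have h : ‖(eY y : Fin 1 → ℂ) 0‖ < 1 := (eY y).2
  unfold oneVar
  rw [dif_pos h]
  congr 1
  rw [Homeomorph.symm_apply_eq]
  apply Subtype.ext
  funext i
  rw [Subsingleton.elim i 0]

theorem oneVar_differentiableOn {f : YY → ℂ} (hf : f ∈ Hol holY) :
    DifferentiableOn ℂ (oneVar f) (Metric.ball 0 1) := by
  intro w hw
  rw [mem_ball_zero_iff] at hw
  have hq := hf (eY.symm ⟨fun _ => w, hw⟩)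
  obtain ⟨G, hG, hfG⟩ := hq
  rw [Homeomorph.apply_symm_apply] at hG
  have hι : AnalyticAt ℂ (fun w : ℂ => (fun _ : Fin 1 => w)) w :=
    AnalyticAt.pi fun _ => analyticAt_id
  have hGι : AnalyticAt ℂ (fun w : ℂ => G (fun _ : Fin 1 => w)) w :=
    AnalyticAt.fun_comp (f := fun w : ℂ => (fun _ : Fin 1 => w)) hG hι
  refine DifferentiableAt.differentiableWithinAt ?_
  refine hGι.differentiableAt.congr_of_eventuallyEq ?_
  obtain ⟨z0, hz0⟩ : ∃ z0 : VV, z0 = ⟨fun _ => w, hw⟩ := ⟨_, rfl⟩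
  have hz0' : (z0 : Fin 1 → ℂ) = fun _ => w := by rw [hz0]
  have h1 : ∀ᶠ z : VV in 𝓝 z0, f (eY.symm z) = G z := by
    have h2 := (eY.symm.continuous.tendsto z0).eventually (by rw [hz0]; exact hfG)
    filter_upwards [h2] with z hz
    rw [hz, Homeomorph.apply_symm_apply]
  rw [nhds_induced, Filter.eventually_comap, hz0'] at h1
  have h3 : Tendsto (fun w : ℂ => (fun _ : Fin 1 => w)) (𝓝 w) (𝓝 (fun _ : Fin 1 => w)) :=
    hι.continuousAt
  have h4 := h3.eventually h1
  have h5 : ∀ᶠ u : ℂ in 𝓝 w, ‖u‖ < 1 := continuous_norm.continuousAt.eventually (eventually_lt_nhds hw)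
  filter_upwards [h4, h5] with u hu hu1
  unfold oneVar
  rw [dif_pos hu1]
  exact hu ⟨fun _ => u, hu1⟩ rfl

theorem dense_YY {f : YY → ℂ} (hf : f ∈ Hol holY) {K : Set YY} (hK : IsCompact K) {ε : ℝ}
    (hε : 0 < ε) : ∃ x : AA, ∀ φ ∈ K, ‖(φ : characterSpace ℂ AA) x - f φ‖ < ε := by
  obtain ⟨r, hr0, hr, hKr⟩ := exists_radius hK
  obtain ⟨s, hrs, hs⟩ := exists_between hr
  obtain ⟨R, hsR, hR⟩ := exists_between hs
  lift s to NNReal using (hr0.trans hrs.le)
  lift R to NNReal using (s.2.trans hsR.le)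
  have hR0 : 0 < R := lt_of_le_of_lt (zero_le) (by exact_mod_cast hsR : s < R)
  have hd : DifferentiableOn ℂ (oneVar f) (Metric.closedBall 0 R) :=
    (oneVar_differentiableOn hf).mono (Metric.closedBall_subset_ball hR)
  have hp := hd.hasFPowerSeriesOnBall hR0
  have hsR' : ((s : NNReal) : ENNReal) < R := by exact_mod_cast hsR
  have hu := hp.tendstoUniformlyOn' hsR'
  rw [Metric.tendstoUniformlyOn_iff] at hu
  obtain ⟨N, hN⟩ := (hu ε hε).exists
  set p := cauchyPowerSeries (oneVar f) 0 R with hpdef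
  refine ⟨∑ k ∈ Finset.range N, p.coeff k • zA ^ k, ?_⟩
  intro φ hφ
  have h1 := hN ((eY φ : Fin 1 → ℂ) 0) (by
    rw [mem_ball_zero_iff]
    exact lt_of_le_of_lt (hKr φ hφ) hrs)
  rw [oneVar_coord, dist_comm, dist_eq_norm, sub_zero] at h1
  have h2 : (φ : characterSpace ℂ AA) (∑ k ∈ Finset.range N, p.coeff k • zA ^ k) =
      p.partialSum N ((eY φ : Fin 1 → ℂ) 0) := by
    rw [map_sum, FormalMultilinearSeries.partialSum]
    refine Finset.sum_congr rfl fun k _ => ?_
    rw [map_smul, map_pow, FormalMultilinearSeries.apply_eq_pow_smul_coeff, smul_eq_mul,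
      smul_eq_mul, mul_comm]
    rfl
  rw [h2]
  exact h1

theorem isLocallyStein_AA : IsLocallyStein AA := by
  refine ⟨YY, isOpen_YY, ⟨evA ⟨0, ball_sub (by simp)⟩, ?_⟩, holY, isReducedStein_YY, ?_, ?_⟩
  · change ‖evA _ zA‖ < 1
    rw [evA_apply, zA_apply]
    simp
  · intro f q
    have hd : DifferentiableOn ℂ (ext f) (Metric.ball 0 1) := f.2
    have hq1 : ‖(q : characterSpace ℂ AA) zA‖ < 1 := q.2
    have han : AnalyticAt ℂ (ext f) ((q : characterSpace ℂ AA) zA) :=
      hd.analyticAt (Metric.isOpen_ball.mem_nhds (by rw [mem_ball_zero_iff]; exact hq1))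
    refine ⟨fun z => ext f (z 0), ?_, ?_⟩
    · have h1 : AnalyticAt ℂ (fun z : Fin 1 → ℂ => z 0) (eY q) :=
        (ContinuousLinearMap.proj (R := ℂ) (φ := fun _ : Fin 1 => ℂ) 0).analyticAt _
      exact AnalyticAt.fun_comp (f := fun z : Fin 1 → ℂ => z 0) han h1
    · refine Filter.Eventually.of_forall fun y => ?_
      change (y : characterSpace ℂ AA) f = ext f ((y : characterSpace ℂ AA) zA)
      rw [char_eq y.1 y.2 f, ext_apply]
  · intro f hf K hK ε hε
    exact dense_YY hf hK hε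

end Q71.LS
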