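import Pool.Agent.Q71.LS.Pos
import Pool.Agent.Q71.LS.Neg

/-!
# The closed subalgebra of the functions which are constant on `D̄`
-/

namespace Q71.LS

open Set Filter Topology WeakDual

theorem one_mem_KK : (1 : ℂ) ∈ KK := by
  left
  simp

/-- The subalgebra. -/
noncomputable def sB : Subalgebra ℂ AA where
  carrier := {f | ∀ w : KK, ‖(w : ℂ)‖ ≤ 1 → (f : C(KK, ℂ)) w = (f : C(KK, ℂ)) ⟨1, one_mem_KK⟩}
  mul_mem' := by
    intro f g hf hg w hw
    change (f : C(KK, ℂ)) w * (g : C(KK, ℂ)) w = (f : C(KK, ℂ)) ⟨1, one_mem_KK⟩ *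
      (g : C(KK, ℂ)) ⟨1, one_mem_KK⟩
    rw [hf w hw, hg w hw]
  add_mem' := by
    intro f g hf hg w hw
    change (f : C(KK, ℂ)) w + (g : C(KK, ℂ)) w = (f : C(KK, ℂ)) ⟨1, one_mem_KK⟩ +
      (g : C(KK, ℂ)) ⟨1, one_mem_KK⟩
    rw [hf w hw, hg w hw]
  algebraMap_mem' := by
    intro c w hw
    rfl

theorem isClosed_sB : IsClosed (sB : Set AA) := by
  have h1 : (sB : Set AA) = ⋂ w : KK, ⋂ (_ : ‖(w : ℂ)‖ ≤ 1),
      {f : AA | (f : C(KK, ℂ)) w = (f : C(KK, ℂ)) ⟨1, one_mem_KK⟩} := by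
    ext f
    simp only [mem_iInter]
    rfl
  rw [h1]
  refine isClosed_iInter fun w => isClosed_iInter fun _ => ?_
  refine isClosed_eq ?_ ?_
  · exact (continuous_eval_const w).comp continuous_subtype_val
  · exact (continuous_eval_const _).comp continuous_subtype_val

instance : CompleteSpace sB := isClosed_sB.completeSpace_coe

/-- Points of the interval as points of `KK`. -/
def pt (t : Icc (1 : ℝ) 2) : KK := ⟨((t : ℝ) : ℂ), Or.inr ⟨t, t.2, rfl⟩⟩

theorem continuous_pt : Continuous pt :=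
  Continuous.subtype_mk (Complex.continuous_ofReal.comp continuous_subtype_val) _

/-- The retraction of `KK` to the interval. -/
noncomputable def rr : C(KK, Icc (1 : ℝ) 2) :=
  ⟨fun w => projIcc 1 2 one_le_two (w : ℂ).re,
    continuous_projIcc.comp (Complex.continuous_re.comp continuous_subtype_val)⟩

theorem rr_of_norm_le {w : KK} (hw : ‖(w : ℂ)‖ ≤ 1) : rr w = ⟨1, by norm_num⟩ := by
  have h1 : (w : ℂ).re ≤ 1 := (Complex.re_le_norm _).trans hw
  exact projIcc_of_le_left one_le_two h1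

theorem rr_pt (t : Icc (1 : ℝ) 2) : rr (pt t) = t := by
  change projIcc 1 2 one_le_two (((t : ℝ) : ℂ)).re = t
  rw [Complex.ofReal_re, projIcc_val]

/-- Functions on the interval as elements of the subalgebra. -/
noncomputable def eE (g : C(Icc (1 : ℝ) 2, ℂ)) : sB := by
  refine ⟨⟨g.comp rr, ?_⟩, ?_⟩
  · rw [mem_dA]
    refine (differentiableOn_const (g ⟨1, by norm_num⟩)).congr fun w hw => ?_
    have hw1 : ‖w‖ < 1 := by simpa using hw
    rw [ext_apply _ (ball_sub hw1)]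
    change g (rr _) = _
    rw [rr_of_norm_le hw1.le]
  · intro w hw
    change g (rr w) = g (rr _)
    rw [rr_of_norm_le hw, rr_of_norm_le (by simp)]

theorem eE_apply (g : C(Icc (1 : ℝ) 2, ℂ)) (w : KK) : ((eE g : AA) : C(KK, ℂ)) w = g (rr w) := rfl

/-- The algebra homomorphism. -/
noncomputable def eEh : C(Icc (1 : ℝ) 2, ℂ) →ₐ[ℂ] sB where
  toFun := eE
  map_one' := rfl
  map_mul' := fun _ _ => rfl
  map_zero' := rfl
  map_add' := fun _ _ => rfl
  commutes' := fun _ => rfl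

theorem eEh_surj (b : sB) : eEh (((b : AA) : C(KK, ℂ)).comp ⟨pt, continuous_pt⟩) = b := by
  apply Subtype.ext
  apply Subtype.ext
  ext w
  change ((b : AA) : C(KK, ℂ)) (pt (rr w)) = _
  rcases w.2 with hw | ⟨t, ht, htw⟩
  · have hw' : ‖(w : ℂ)‖ ≤ 1 := by simpa using hw
    rw [rr_of_norm_le hw', b.2 w hw']
    congr 1
  · congr 1
    apply Subtype.ext
    change (((rr w : Icc (1 : ℝ) 2) : ℝ) : ℂ) = w
    have h1 : rr w = ⟨t, ht⟩ := by
      change projIcc 1 2 one_le_two (w : ℂ).re = _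
      rw [← htw]
      change projIcc 1 2 one_le_two ((t : ℂ)).re = _
      rw [Complex.ofReal_re]
      exact projIcc_of_mem one_le_two ht
    rw [h1]
    exact htw

/-- Evaluation at a point of the interval. -/
noncomputable def evB (t : Icc (1 : ℝ) 2) : characterSpace ℂ sB :=
  (CharacterSpace.equivAlgHom (𝕜 := ℂ) (A := sB)).symm
    (((ContinuousMap.evalAlgHom ℂ ℂ (pt t)).comp dA.val).comp sB.val)

theorem evB_apply (t : Icc (1 : ℝ) 2) (b : sB) : evB t b = ((b : AA) : C(KK, ℂ)) (pt t) := rfl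

theorem continuous_evB : Continuous evB := by
  refine Continuous.subtype_mk ?_ _
  refine WeakDual.continuous_of_continuous_eval ?_
  intro b
  exact (((b : AA) : C(KK, ℂ)).continuous).comp continuous_pt

theorem evB_surj (ψ : characterSpace ℂ sB) : ∃ t, evB t = ψ := by
  let ψ' : characterSpace ℂ C(Icc (1 : ℝ) 2, ℂ) :=
    CharacterSpace.equivAlgHom.symm ((CharacterSpace.toAlgHom ψ).comp eEh)
  obtain ⟨t, ht⟩ := (CharacterSpace.continuousMapEval_bijective (X := Icc (1 : ℝ) 2) (𝕜 := ℂ)).2 ψ'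
  refine ⟨t, ?_⟩
  apply CharacterSpace.ext
  intro b
  rw [evB_apply]
  have h1 : ψ' (((b : AA) : C(KK, ℂ)).comp ⟨pt, continuous_pt⟩) = ψ b := by
    change ψ (eEh _) = ψ b
    rw [eEh_surj]
  rw [← h1, ← ht]
  rfl

/-- The coordinate on the interval. -/
noncomputable def cB : sB := eE ⟨fun t => ((t : ℝ) : ℂ),
  Complex.continuous_ofReal.comp continuous_subtype_val⟩

theorem evB_cB (t : Icc (1 : ℝ) 2) : evB t cB = ((t : ℝ) : ℂ) := by
  rw [evB_apply, cB, eE_apply]
  change (((rr (pt t) : Icc (1 : ℝ) 2) : ℝ) : ℂ) = _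
  rw [rr_pt]

theorem continuous_apply_char' (b : sB) : Continuous fun φ : characterSpace ℂ sB => φ b :=
  (WeakDual.eval_continuous b).comp continuous_subtype_val

/-- Every nonempty open set of the spectrum contains an open interval. -/
theorem exists_interval (O : Set (characterSpace ℂ sB)) (hO : IsOpen O) (hOn : O.Nonempty) :
    ∃ O' ⊆ O, IsOpen O' ∧ IL O' := by
  obtain ⟨ψ, hψ⟩ := hOn
  obtain ⟨t0, rfl⟩ := evB_surj ψ
  -- the open set of the interval
  have h1 : IsOpen (evB ⁻¹' O) := hO.preimage continuous_evB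
  obtain ⟨W, hW, hWe⟩ := isOpen_induced_iff.1 h1
  have ht0W : (t0 : ℝ) ∈ W := by
    have : t0 ∈ Subtype.val ⁻¹' W := by rw [hWe]; exact hψ
    exact this
  -- a point of the open interval
  obtain ⟨t1, ht1W, ht11, ht12⟩ : ∃ t1 ∈ W, 1 < t1 ∧ t1 < 2 := by
    have hcl : (t0 : ℝ) ∈ closure (Ioo (1 : ℝ) 2) := by
      rw [closure_Ioo (by norm_num)]
      exact t0.2
    obtain ⟨t1, h2, h3⟩ := mem_closure_iff.1 hcl W hW ht0W
    exact ⟨t1, h2, h3.1, h3.2⟩
  obtain ⟨a, b, hab, hsub⟩ := mem_nhds_iff_exists_Ioo_subset.1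
    (Filter.inter_mem (hW.mem_nhds ht1W) (Ioo_mem_nhds ht11 ht12))
  let g : characterSpace ℂ sB → ℝ := fun φ => (φ cB).re
  have hg : Continuous g := Complex.continuous_re.comp (continuous_apply_char' cB)
  have hgev : ∀ t, g (evB t) = t := by
    intro t
    change (evB t cB).re = t
    rw [evB_cB, Complex.ofReal_re]
  let γ : ℝ → characterSpace ℂ sB := fun t => evB (projIcc 1 2 one_le_two t)
  have hγ : Continuous γ := continuous_evB.comp continuous_projIcc
  have hab1 : ∀ t ∈ Ioo a b, t ∈ Icc (1 : ℝ) 2 := fun t ht =>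
    ⟨(hsub ht).2.1.le, (hsub ht).2.2.le⟩
  have hγt : ∀ t (ht : t ∈ Ioo a b), γ t = evB ⟨t, hab1 t ht⟩ := by
    intro t ht
    change evB (projIcc 1 2 one_le_two t) = _
    rw [projIcc_of_mem one_le_two (hab1 t ht)]
  refine ⟨g ⁻¹' Ioo a b, ?_, isOpen_Ioo.preimage hg, a, b, γ, g, hab.1.trans hab.2,
    hγ.continuousOn, hg.continuousOn, ?_, fun φ hφ => hφ, ?_, ?_⟩
  · intro φ hφ
    obtain ⟨t, rfl⟩ := evB_surj φ
    have h2 : g (evB t) ∈ Ioo a b := hφ
    rw [hgev] at h2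
    have h3 : t ∈ Subtype.val ⁻¹' W := (hsub h2).1
    rw [hWe] at h3
    exact h3
  · intro t ht
    change g (γ t) ∈ Ioo a b
    rw [hγt t ht, hgev]
    exact ht
  · intro t ht
    rw [hγt t ht, hgev]
  · intro φ hφ
    obtain ⟨t, rfl⟩ := evB_surj φ
    rw [hgev]
    change evB (projIcc 1 2 one_le_two t) = _
    rw [projIcc_val]

theorem not_complexSpace (Y : Set (characterSpace ℂ sB)) (hY : IsOpen Y) (hYn : Y.Nonempty)
    (hol : (Y → ℂ) → Y → Prop) : ¬ IsReducedComplexSpace Y hol :=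
  not_reducedComplexSpace exists_interval Y hY hYn hol

theorem not_isLocallyStein_sB : ¬ IsLocallyStein sB := by
  rintro ⟨Y, hY, hYn, hol, hst, -, -⟩
  exact not_complexSpace Y hY hYn hol hst.1

end Q71.LS
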